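import Mathlib
import Pool.Agent.H812.Gi.Spec

/-!
# Leaves near a point with `|z_0| = 1` meet `{z_0 = const}` and `{|z_0| < 1}`

`tHIT : SField → SCoord → GTv → GHit` for the project `Gi` of helper812.
-/

set_option autoImplicit false

open Real Filter Topology Set
open scoped ContDiff

namespace Pool.Agent.H696.GiHIT

open Pool.Agent.W811.Stu Pool.Agent.H812.Tm Pool.Agent.H812.Gi

/-- one sided bound by a continuity argument -/
lemma stay1 {f g : ℝ → ℝ} {τ L : ℝ} (h0 : f 0 = 0)
    (hf : ∀ x ∈ Icc (0 : ℝ) τ, HasDerivAt f (g x) x)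
    (hg : ∀ x ∈ Icc (0 : ℝ) τ, |f x| ≤ L * τ → |g x| < L) (hL : 0 < L) :
    ∀ x ∈ Icc (0 : ℝ) τ, |f x| ≤ L * x := by
  intro x hx
  have key := image_norm_le_of_norm_deriv_right_lt_deriv_boundary' (f := f) (f' := g) (a := 0)
    (b := τ) (B := fun x => L * x) (B' := fun _ => L)
    (fun y hy => (hf y hy).continuousAt.continuousWithinAt)
    (fun y hy => (hf y (Ico_subset_Icc_self hy)).hasDerivWithinAt)
    (by simp [h0]) (fun y _ => by fun_prop)
    (fun y _ => by
      have := (hasDerivAt_id y).const_mul L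
      simpa using this.hasDerivWithinAt)
    (fun y hy hyy => by
      rw [Real.norm_eq_abs] at hyy ⊢
      refine hg y (Ico_subset_Icc_self hy) ?_
      rw [hyy]
      exact mul_le_mul_of_nonneg_left hy.2.le hL.le)
  have := key hx
  rwa [Real.norm_eq_abs] at this

/-- two sided bound -/
lemma stay {ψ s : ℝ → ℝ} {w τ L : ℝ} (hL : 0 < L)
    (hf : ∀ z, |z - w| ≤ τ → HasDerivAt ψ (s z) z)
    (hg : ∀ z, |z - w| ≤ τ → |ψ z - ψ w| ≤ L * τ → |s z| < L) :
    ∀ z, |z - w| ≤ τ → |ψ z - ψ w| ≤ L * |z - w| := by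
  intro z hz
  rcases le_total w z with h | h
  · have h1 := stay1 (f := fun x => ψ (w + x) - ψ w) (g := fun x => s (w + x)) (τ := τ) (L := L)
      (by simp) (fun x hx => by
        have hx' : |w + x - w| ≤ τ := by
          rw [show w + x - w = x by ring, abs_of_nonneg hx.1]; exact hx.2
        have h2 : HasDerivAt (fun x : ℝ => w + x) 1 x := by
          simpa using (hasDerivAt_id x).const_add w
        have h3 := (HasDerivAt.comp x (h₂ := ψ) (h := fun x : ℝ => w + x) (hf _ hx') h2)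
        simpa [Function.comp_def] using h3.sub_const (ψ w))
      (fun x hx hh => by
        have hx' : |w + x - w| ≤ τ := by
          rw [show w + x - w = x by ring, abs_of_nonneg hx.1]; exact hx.2
        exact hg _ hx' hh) hL (z - w)
        ⟨by linarith, by rwa [abs_of_nonneg (by linarith)] at hz⟩
    rw [abs_of_nonneg (by linarith : (0 : ℝ) ≤ z - w)]
    simpa using h1
  · have h1 := stay1 (f := fun x => ψ (w - x) - ψ w) (g := fun x => -s (w - x)) (τ := τ) (L := L)
      (by simp) (fun x hx => by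
        have hx' : |w - x - w| ≤ τ := by
          rw [show w - x - w = -x by ring, abs_neg, abs_of_nonneg hx.1]; exact hx.2
        have h2 : HasDerivAt (fun x : ℝ => w - x) (-1) x := by
          simpa using (hasDerivAt_id x).const_sub w
        have h3 := (HasDerivAt.comp x (h₂ := ψ) (h := fun x : ℝ => w - x) (hf _ hx') h2)
        simpa [Function.comp_def] using h3.sub_const (ψ w))
      (fun x hx hh => by
        have hx' : |w - x - w| ≤ τ := by
          rw [show w - x - w = -x by ring, abs_neg, abs_of_nonneg hx.1]; exact hx.2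
        rw [abs_neg]
        exact hg _ hx' hh) hL (w - z)
        ⟨by linarith, by rw [abs_sub_comm] at hz; rwa [abs_of_nonneg (by linarith)] at hz⟩
    rw [abs_sub_comm z w, abs_of_nonneg (by linarith : (0 : ℝ) ≤ w - z)]
    simpa using h1

/-- a function with derivative bounded below takes all nearby values -/
lemma hits {f f' : ℝ → ℝ} {w τ a : ℝ} (hτ : 0 < τ)
    (hf : ∀ z, |z - w| ≤ τ → HasDerivAt f (f' z) z) (hp : ∀ z, |z - w| ≤ τ → a ≤ f' z)
    {y : ℝ} (hy : |y - f w| ≤ a * τ) : ∃ z, |z - w| ≤ τ ∧ f z = y := by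
  have hin : ∀ z ∈ Icc (w - τ) (w + τ), |z - w| ≤ τ := fun z hz => by
    rw [abs_le]; constructor <;> linarith [hz.1, hz.2]
  have hc : ContinuousOn f (Icc (w - τ) (w + τ)) := fun z hz =>
    (hf z (hin z hz)).continuousAt.continuousWithinAt
  have hmono : ∀ x ∈ Icc (w - τ) (w + τ), ∀ z ∈ Icc (w - τ) (w + τ), x ≤ z →
      a * (z - x) ≤ f z - f x := by
    refine Convex.mul_sub_le_image_sub_of_le_deriv (convex_Icc _ _) hc ?_ ?_
    · intro z hz
      exact (hf z (hin z (interior_subset hz))).differentiableAt.differentiableWithinAt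
    · intro z hz
      rw [(hf z (hin z (interior_subset hz))).deriv]
      exact hp z (hin z (interior_subset hz))
  have h1 := hmono (w - τ) ⟨le_refl _, by linarith⟩ w ⟨by linarith, by linarith⟩ (by linarith)
  have h2 := hmono w ⟨by linarith, by linarith⟩ (w + τ) ⟨by linarith, le_refl _⟩ (by linarith)
  have h3 := intermediate_value_Icc (by linarith : w - τ ≤ w + τ) hc
  rw [abs_le] at hy
  have hy' : y ∈ Icc (f (w - τ)) (f (w + τ)) := by
    constructor
    · have : a * (w - (w - τ)) = a * τ := by ring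
      linarith [hy.1]
    · have : a * (w + τ - w) = a * τ := by ring
      linarith [hy.2]
  obtain ⟨z, hz, hzy⟩ := h3 hy'
  exact ⟨z, hin z hz, hzy⟩

lemma hits' {f f' : ℝ → ℝ} {w τ a : ℝ} (hτ : 0 < τ)
    (hf : ∀ z, |z - w| ≤ τ → HasDerivAt f (f' z) z)
    (hp : (∀ z, |z - w| ≤ τ → a ≤ f' z) ∨ ∀ z, |z - w| ≤ τ → a ≤ -f' z)
    {y : ℝ} (hy : |y - f w| ≤ a * τ) : ∃ z, |z - w| ≤ τ ∧ f z = y := by
  rcases hp with hp | hp
  · exact hits hτ hf hp hy
  · obtain ⟨z, hz, h⟩ := hits (f := fun z => -f z) (f' := fun z => -f' z) hτ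
      (fun z hz => (hf z hz).neg) hp (y := -y) (by
        rw [show -y - -f w = -(y - f w) by ring, abs_neg]; exact hy)
    exact ⟨z, hz, by linarith⟩

/-- the function `z_0` in the coordinates of stage `n` -/
noncomputable def FF (δ : ℝ) (d : ℕ → ℕ) (n : ℕ) (v : ℝ × ℝ) : ℝ := (borb d n (ze δ v)).z

lemma FF_smooth (hC : SCoord) (δ : ℝ) (d : ℕ → ℕ) (n : ℕ) : ContDiffOn ℝ ∞ (FF δ d n) U := by
  have h : FF δ d n = fun v => (go d n (zh δ v)).2.2 := by
    funext v; rfl
  rw [h]
  have h1 : ContDiffOn ℝ ∞ (fun v => go d n (zh δ v)) U :=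
    (go_smooth d n).comp_contDiffOn (zh_smooth hC δ)
  exact h1.snd.snd

theorem tHIT (hS : SField) (hC : SCoord) (hT : GTv) : GHit := by
  intro δ κ θ d hx n v hv hb
  have hvU : v ∈ U := hv.1
  -- smoothness
  have hF := FF_smooth hC δ d n
  have hsg := (hS δ κ (shd d n) θ hx.hδ hx.hκ1 hx.hκ (fun k => hx.hd _) hx.hθ).1
  set sgn : ℝ × ℝ → ℝ := sg θ δ (shd d n) with hsgn
  set F : ℝ × ℝ → ℝ := FF δ d n with hFdef
  have hFd : ∀ w ∈ U, DifferentiableAt ℝ F w := fun w hw =>
    (hF.contDiffAt (isOpen_U.mem_nhds hw)).differentiableAt (by simp)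
  set G : ℝ × ℝ → ℝ := fun w => fderiv ℝ F w (1, sgn w) with hG
  have hGc : ContinuousAt G v := by
    have h1 : ContinuousAt (fun w => fderiv ℝ F w) v :=
      ((hF.contDiffAt (isOpen_U.mem_nhds hvU)).fderiv_right (m := 0) (by simp)).continuousAt
    have h2 : ContinuousAt sgn v := (hsg.contDiffAt (isOpen_U.mem_nhds hvU)).continuousAt
    exact h1.clm_apply (continuousAt_const.prodMk h2)
  have hsc : ContinuousAt sgn v := (hsg.contDiffAt (isOpen_U.mem_nhds hvU)).continuousAt
  have hG0 : G v ≠ 0 := by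
    have := hT δ κ θ d hx n 0 v hv (by
      show |(borb d n (ze δ v)).z| ≤ 1
      exact hb.le)
    exact this
  set a : ℝ := |G v| / 2 with ha
  have hGp : 0 < |G v| := abs_pos.mpr hG0
  have ha0 : 0 < a := by positivity
  set L : ℝ := |sgn v| + 2 with hL
  have hL0 : 0 < L := by positivity
  -- the neighbourhood
  have e1 : ∀ᶠ w in 𝓝 v, w ∈ U ∧ |G w - G v| < a ∧ |sgn w - sgn v| < 1 := by
    refine Filter.Eventually.and (isOpen_U.mem_nhds hvU) (Filter.Eventually.and ?_ ?_)
    · have := hGc.tendsto.sub_const (G v)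
      have h3 := this.abs
      simp only [sub_self, abs_zero] at h3
      exact h3.eventually (gt_mem_nhds ha0)
    · have := hsc.tendsto.sub_const (sgn v)
      have h3 := this.abs
      simp only [sub_self, abs_zero] at h3
      exact h3.eventually (gt_mem_nhds one_pos)
  obtain ⟨R, hR0, hR⟩ := Metric.eventually_nhds_iff.mp e1
  set τ : ℝ := R / (4 * (L + 1)) with hτ
  have hτ0 : 0 < τ := by positivity
  have hτR : (L + 1) * τ = R / 4 := by rw [hτ]; field_simp
  have hFc : ContinuousAt F v := (hFd v hvU).continuousAt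
  obtain ⟨ρ1, hρ1, hρ1'⟩ := Metric.continuousAt_iff.mp hFc (a * τ / 2) (by positivity)
  refine ⟨min ρ1 (R / 4), by positivity, ?_⟩
  intro ψ hψ w hw hwv hψv
  have hwv1 : |w - v.1| < R / 4 := hwv.trans_le (min_le_right _ _)
  have hψv1 : |ψ w - v.2| < R / 4 := hψv.trans_le (min_le_right _ _)
  have hnear : ∀ x y : ℝ, |x - v.1| < R → |y - v.2| < R → (x, y) ∈ U ∧ |G (x, y) - G v| < a ∧
      |sgn (x, y) - sgn v| < 1 := by
    intro x y h1 h2
    refine hR ?_
    rw [Prod.dist_eq]
    exact max_lt (by rwa [Real.dist_eq]) (by rwa [Real.dist_eq])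
  have hLτ : L * τ ≤ R / 4 := by
    rw [← hτR]; nlinarith
  have hτ4 : τ ≤ R / 4 := by
    rw [← hτR]; nlinarith
  -- points of `|z - w| ≤ τ` lie in the strip
  have hzin : ∀ z, |z - w| ≤ τ → |z - v.1| < R := by
    intro z hz
    calc |z - v.1| = |(z - w) + (w - v.1)| := by ring_nf
      _ ≤ |z - w| + |w - v.1| := abs_add_le _ _
      _ < R := by linarith
  have hz1 : ∀ z, |z - w| ≤ τ → |z| < 1 := by
    intro z hz
    have := (hnear z v.2 (hzin z hz) (by simpa using hR0)).1
    exact this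
  have hstay : ∀ z, |z - w| ≤ τ → |ψ z - ψ w| ≤ L * |z - w| := by
    refine stay (s := fun z => sgn (z, ψ z)) hL0 (fun z hz => (hψ z (hz1 z hz)).1) ?_
    intro z hz hh
    have h2 : |ψ z - v.2| < R := by
      calc |ψ z - v.2| = |(ψ z - ψ w) + (ψ w - v.2)| := by ring_nf
        _ ≤ |ψ z - ψ w| + |ψ w - v.2| := abs_add_le _ _
        _ < R := by linarith
    have h3 := (hnear z (ψ z) (hzin z hz) h2).2.2
    calc |sgn (z, ψ z)| = |(sgn (z, ψ z) - sgn v) + sgn v| := by ring_nf
      _ ≤ |sgn (z, ψ z) - sgn v| + |sgn v| := abs_add_le _ _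
      _ < L := by rw [hL]; linarith
  have hψz : ∀ z, |z - w| ≤ τ → |ψ z - v.2| < R := by
    intro z hz
    have h1 := hstay z hz
    have h2 : L * |z - w| ≤ L * τ := mul_le_mul_of_nonneg_left hz hL0.le
    calc |ψ z - v.2| = |(ψ z - ψ w) + (ψ w - v.2)| := by ring_nf
      _ ≤ |ψ z - ψ w| + |ψ w - v.2| := abs_add_le _ _
      _ < R := by linarith
  -- the function along the leaf
  have hder : ∀ z, |z - w| ≤ τ → HasDerivAt (fun z => F (z, ψ z)) (G (z, ψ z)) z := by
    intro z hz
    have h1 : HasDerivAt (fun z => (z, ψ z)) ((1 : ℝ), sgn (z, ψ z)) z :=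
      (hasDerivAt_id z).prodMk (hψ z (hz1 z hz)).1
    have h2 : HasFDerivAt F (fderiv ℝ F (z, ψ z)) (z, ψ z) :=
      (hFd _ (hnear z (ψ z) (hzin z hz) (hψz z hz)).1).hasFDerivAt
    exact h2.comp_hasDerivAt z h1
  have hsign : (∀ z, |z - w| ≤ τ → a ≤ G (z, ψ z)) ∨ (∀ z, |z - w| ≤ τ → a ≤ -G (z, ψ z)) := by
    rcases lt_or_gt_of_ne hG0 with h | h
    · right
      intro z hz
      have h3 := (hnear z (ψ z) (hzin z hz) (hψz z hz)).2.1
      rw [abs_lt] at h3
      have h4 : |G v| = -G v := abs_of_neg h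
      linarith [h3.2]
    · left
      intro z hz
      have h3 := (hnear z (ψ z) (hzin z hz) (hψz z hz)).2.1
      rw [abs_lt] at h3
      have h4 : |G v| = G v := abs_of_pos h
      linarith [h3.1]
  have hFw : |F v - F (w, ψ w)| < a * τ / 2 := by
    have : dist (w, ψ w) v < ρ1 := by
      rw [Prod.dist_eq]
      exact max_lt (by rw [Real.dist_eq]; exact hwv.trans_le (min_le_left _ _))
        (by rw [Real.dist_eq]; exact hψv.trans_le (min_le_left _ _))
    have h := hρ1' this
    rw [Real.dist_eq, abs_sub_comm] at h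
    exact h
  have hval : ∀ y, |y - F v| ≤ a * τ / 2 → ∃ z, |z| < 1 ∧ F (z, ψ z) = y := by
    intro y hy
    obtain ⟨z, hz, h⟩ := hits' (f := fun z => F (z, ψ z)) (f' := fun z => G (z, ψ z)) hτ0 hder
      hsign (y := y) (by
        show |y - F (w, ψ w)| ≤ a * τ
        calc |y - F (w, ψ w)| = |(y - F v) + (F v - F (w, ψ w))| := by ring_nf
          _ ≤ |y - F v| + |F v - F (w, ψ w)| := abs_add_le _ _
          _ ≤ a * τ := by linarith)
    exact ⟨z, hz1 z hz, h⟩
  have haτ : 0 < a * τ / 2 := by positivity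
  constructor
  · exact hval (F v) (by simpa using haτ.le)
  · have hFv : |F v| = 1 := hb
    set m : ℝ := min (a * τ / 2) 1 with hm
    have hm0 : 0 < m := by positivity
    have hm1 : m ≤ 1 := min_le_right _ _
    obtain ⟨z, hz, h⟩ := hval (F v * (1 - m)) (by
      rw [show F v * (1 - m) - F v = -(F v * m) by ring, abs_neg, abs_mul, hFv, one_mul,
        abs_of_pos hm0]
      exact min_le_left _ _)
    refine ⟨z, hz, ?_⟩
    show |F (z, ψ z)| < 1
    rw [h, abs_mul, hFv, one_mul, abs_of_nonneg (by linarith)]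
    linarith

end Pool.Agent.H696.GiHIT
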