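import Pool.Agent.H514.KS.Ker

/-! MX-4a: the kernel bound for the classes in the Tate-Shafarevich group over `ℚ`. -/

set_option autoImplicit false

open scoped Classical

namespace Pool.Agent.H514.MX

open Finset WeierstrassCurve Pool.Agent.W262.SH Pool.Agent.H514.KS

variable {e : Fin 3 → ℤ} {P : Finset ℕ}

lemma bot_mem (σ : GQ) : σ ∈ fixG (⊥ : IntermediateField ℚ QB) := by
  unfold fixG
  rw [IntermediateField.fixingSubgroup_bot]
  exact Subgroup.mem_top σ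

/-- an automorphism as an element of the group of the field `⊥` -/
def up (σ : GQ) : Gal (⊥ : IntermediateField ℚ QB) := ⟨σ, bot_mem σ⟩

lemma rat_of_fixed {x : QB} (h : ∀ σ : GQ, σ x = x) : ∃ q : ℚ, algebraMap ℚ QB q = x := by
  have h1 : x ∈ (⊥ : IntermediateField ℚ QB) := mem_of_fixed fun σ => h σ.1
  exact IntermediateField.mem_bot.1 h1

lemma ptQ_of_fixed (W : WeierstrassCurve ℚ) {Q : Pt W QB} (h : ∀ σ : GQ, gact W σ Q = Q) :
    ∃ R : Pt W ℚ, act W (Algebra.ofId ℚ QB) R = Q :=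
  pt_of_fixed (L := ⊥) (φ := Algebra.ofId ℚ QB) W
    (fun _ hx => IntermediateField.mem_bot.1 hx) (fun σ => h σ.1)

lemma incQ_act (W : WeierstrassCurve ℚ) (T : Pt W ℚ) (σ : GQ) :
    gact W σ (act W (Algebra.ofId ℚ QB) T) = act W (Algebra.ofId ℚ QB) T :=
  incL_act (L := ⊥) (φ := Algebra.ofId ℚ QB) W
    (fun x => IntermediateField.mem_bot.2 ⟨x, rfl⟩) T (up σ)

/-- independence -/
lemma Fv_eq_zero {W : WeierstrassCurve ℚ} (hR : RR W e) (hP : ∀ p ∈ P, p.Prime)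
    {v : P → ZMod 2} (h : ∀ σ, Fv W e (fun _ => 0) P v σ = 0) : v = 0 := by
  funext q
  by_contra hv
  have hfix : ∀ σ : GQ, σ (uk (fun _ => 0) P 1 v) = uk (fun _ => 0) P 1 v := by
    intro σ
    have h1 := sg_Fv (jj := fun _ => 0) (P := P) hR 1 v σ
    rw [h σ, Pool.Agent.TH344.SH.sg_zero, one_mul] at h1
    exact h1
  obtain ⟨x, hx⟩ := rat_of_fixed hfix
  have h2 : x ^ 2 = ((dk (fun _ => 0) P 1 v : ℕ) : ℚ) := by
    have h3 : algebraMap ℚ QB (x ^ 2) = algebraMap ℚ QB ((dk (fun _ => 0) P 1 v : ℕ) : ℚ) := by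
      rw [map_pow, hx, uk_sq, map_natCast]
      push_cast
      rfl
    exact (algebraMap ℚ QB).injective h3
  have h4 : IsSquare (dk (fun _ => 0) P 1 v) := by
    rw [← Rat.isSquare_natCast_iff]
    exact ⟨x, by rw [← h2]; ring⟩
  obtain ⟨z, hz⟩ := h4
  have hqp := hP q q.2
  have hval : (v q).val = 1 := (val01 (v q)).1 hv
  have hdk : dk (fun _ => 0) P 1 v = (q : ℕ) * ∏ p ∈ Finset.univ.erase q, (p : ℕ) ^ (v p).val := by
    unfold dk
    rw [← Finset.mul_prod_erase _ _ (Finset.mem_univ q), hval, pow_one]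
    simp
  rw [hdk] at hz
  have hqz : (q : ℕ) ∣ z := by
    have : (q : ℕ) ∣ z * z := ⟨_, hz.symm⟩
    rcases hqp.dvd_mul.1 this with h1 | h1 <;> exact h1
  obtain ⟨y, rfl⟩ := hqz
  have h5 : ∏ p ∈ Finset.univ.erase q, (p : ℕ) ^ (v p).val = q * (y * y) := by
    apply Nat.eq_of_mul_eq_mul_left hqp.pos
    rw [hz]
    ring
  have h6 : (q : ℕ) ∣ ∏ p ∈ Finset.univ.erase q, (p : ℕ) ^ (v p).val := ⟨_, h5⟩
  rw [hqp.prime.dvd_finsetProd_iff] at h6
  obtain ⟨p, hp, hd⟩ := h6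
  have h7 : (q : ℕ) = p := (Nat.prime_dvd_prime_iff_eq hqp (hP p p.2)).1 (hqp.dvd_of_dvd_pow hd)
  exact (Finset.mem_erase.1 hp).1 (Subtype.ext h7.symm)

/-- the map to the Tate-Shafarevich group -/
noncomputable def delQ {W : WeierstrassCurve ℚ} (hR : RR W e)
    (V : Submodule (ZMod 2) (P → ZMod 2))
    (hsn : ∀ v ∈ V, IsS W (Fv W e (fun _ => 0) P v)) : V →+ ShaQ W :=
  (QuotientAddGroup.mk' ((B1 (gact W)).addSubgroupOf (ZS W))).comp
    { toFun := fun v => (⟨Fv W e (fun _ => 0) P v.1, hsn v.1 v.2⟩ : ZS W)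
      map_zero' := by
        apply Subtype.ext
        funext σ
        have h := Fv_add hR (jj := fun _ => 0) (0 : P → ZMod 2) 0 σ
        rw [add_zero] at h
        show Fv W e (fun _ => 0) P 0 σ = 0
        exact left_eq_add.1 h
      map_add' := fun v v' => Subtype.ext (funext fun σ => Fv_add hR v.1 v'.1 σ) }

lemma delQ_ker {W : WeierstrassCurve ℚ} (hR : RR W e) {V : Submodule (ZMod 2) (P → ZMod 2)}
    (hsn : ∀ v ∈ V, IsS W (Fv W e (fun _ => 0) P v)) {v : V} (hv : v ∈ (delQ hR V hsn).ker) :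
    ∃ Q : Pt W QB, ∀ σ : GQ, Fv W e (fun _ => 0) P v.1 σ = gact W σ Q - Q := by
  have h1 : (QuotientAddGroup.mk' ((B1 (gact W)).addSubgroupOf (ZS W)))
      (⟨Fv W e (fun _ => 0) P v.1, hsn v.1 v.2⟩ : ZS W) = 0 := hv
  have h2 := (QuotientAddGroup.eq_zero_iff _).1 h1
  exact h2

lemma delQ_two {W : WeierstrassCurve ℚ} (hR : RR W e) {V : Submodule (ZMod 2) (P → ZMod 2)}
    (hsn : ∀ v ∈ V, IsS W (Fv W e (fun _ => 0) P v)) (v : V) :
    delQ hR V hsn v + delQ hR V hsn v = 0 := by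
  rw [← map_add]
  have h : v + v = 0 := by
    apply Subtype.ext
    funext q
    show v.1 q + v.1 q = 0
    generalize v.1 q = a
    revert a
    decide
  rw [h, map_zero]

theorem kerQ_bound {W : WeierstrassCurve ℚ} (hR : RR W e) (hP : ∀ p ∈ P, p.Prime)
    {V : Submodule (ZMod 2) (P → ZMod 2)}
    (hsn : ∀ v ∈ V, IsS W (Fv W e (fun _ => 0) P v)) {N : ℕ}
    (hN : ∀ S : Finset (Pt W ℚ), (∀ P ∈ S, ∀ Q ∈ S, (∃ R, P - Q = 2 • R) → P = Q) →
      S.card ≤ N) : Nat.card (delQ hR V hsn).ker ≤ N := by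
  have hQ : ∀ v : (delQ hR V hsn).ker, ∃ (Q : Pt W QB) (R : Pt W ℚ),
      act W (Algebra.ofId ℚ QB) R = Q + Q ∧
      ∀ σ : GQ, Fv W e (fun _ => 0) P v.1.1 σ = gact W σ Q - Q := by
    intro v
    obtain ⟨Q, hQ⟩ := delQ_ker hR hsn v.2
    obtain ⟨R, hR'⟩ := ptQ_of_fixed W (Q := Q + Q) (by
      intro σ
      have h1 := hQ σ
      have h2 : Fv W e (fun _ => 0) P v.1.1 σ + Fv W e (fun _ => 0) P v.1.1 σ = 0 :=
        Fv_two hR _ _
      rw [h1] at h2
      rw [map_add]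
      have h3 : gact W σ Q - Q + (gact W σ Q - Q) =
        (gact W σ Q + gact W σ Q) - (Q + Q) := by abel
      rw [h3] at h2
      exact sub_eq_zero.1 h2)
    exact ⟨Q, R, hR', hQ⟩
  choose Q R hQR hQc using hQ
  have key : ∀ v v' : (delQ hR V hsn).ker, (∃ T, R v - R v' = 2 • T) → v = v' := by
    rintro v v' ⟨T, hT⟩
    obtain ⟨U, hU⟩ : ∃ U, U = Q v - Q v' - act W (Algebra.ofId ℚ QB) T := ⟨_, rfl⟩
    have hU2 : U + U = 0 := by
      have h1 : act W (Algebra.ofId ℚ QB) (R v - R v') = act W (Algebra.ofId ℚ QB) (2 • T) := by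
        rw [hT]
      rw [map_sub, map_nsmul, hQR, hQR, two_nsmul] at h1
      rw [hU]
      have : Q v - Q v' - act W (Algebra.ofId ℚ QB) T +
          (Q v - Q v' - act W (Algebra.ofId ℚ QB) T) =
        (Q v + Q v - (Q v' + Q v')) -
          (act W (Algebra.ofId ℚ QB) T + act W (Algebra.ofId ℚ QB) T) := by abel
      rw [this, h1, sub_self]
    have hact : ∀ σ : GQ, gact W σ (act W (Algebra.ofId ℚ QB) T) =
      act W (Algebra.ofId ℚ QB) T := incQ_act W T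
    have hUact : ∀ σ : GQ, gact W σ U = U := by
      intro σ
      refine Pool.Agent.TH344.SH.tor_ext (hR QB) ?_ hU2 ?_ ?_
      · rw [← map_add, hU2, map_zero]
      · refine (sg_act' W σ.toAlgHom (e 0) U).trans ?_
        rcases Pool.Agent.TH344.SH.sg_sq ((e 0 : ℤ) : QB) U with h | h <;> rw [h]
        · exact map_one _
        · rw [map_neg, map_one]
      · refine (sg_act' W σ.toAlgHom (e 1) U).trans ?_
        rcases Pool.Agent.TH344.SH.sg_sq ((e 1 : ℤ) : QB) U with h | h <;> rw [h]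
        · exact map_one _
        · rw [map_neg, map_one]
    have hdiff : ∀ σ, Fv W e (fun _ => 0) P v.1.1 σ = Fv W e (fun _ => 0) P v'.1.1 σ := by
      intro σ
      rw [hQc, hQc]
      have h1 : Q v = Q v' + act W (Algebra.ofId ℚ QB) T + U := by rw [hU]; abel
      rw [h1, map_add, map_add, hact, hUact]
      abel
    have hsum : ∀ σ, Fv W e (fun _ => 0) P (v.1.1 + v'.1.1) σ = 0 := by
      intro σ
      rw [Fv_add hR, hdiff]
      exact Fv_two hR _ _
    have hz := Fv_eq_zero hR hP hsum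
    apply Subtype.ext
    apply Subtype.ext
    funext q
    have h2 := congrFun hz q
    rw [Pi.add_apply, Pi.zero_apply] at h2
    revert h2
    generalize v.1.1 q = a
    generalize v'.1.1 q = b
    revert a b
    decide
  have hinj : Function.Injective R := fun v v' h => key v v' ⟨0, by rw [h, sub_self, nsmul_zero]⟩
  have hfin : Finite (delQ hR V hsn).ker := inferInstance
  have : Fintype (delQ hR V hsn).ker := Fintype.ofFinite _
  rw [Nat.card_eq_fintype_card, ← Finset.card_univ, ← Finset.card_image_of_injective _ hinj]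
  apply hN
  intro A hA B hB hAB
  rw [Finset.mem_image] at hA hB
  obtain ⟨v, -, rfl⟩ := hA
  obtain ⟨v', -, rfl⟩ := hB
  rw [key v v' hAB]

/-- the curve over `ℚ` after the trivial base change -/
lemma bcQ (W : WeierstrassCurve ℚ) : W.baseChange ℚ = W := by
  apply WeierstrassCurve.ext <;> rfl

/-- the rank does not depend on the decidable equality -/
theorem finrank_inst {K : Type} [Field K] (W : WeierstrassCurve.Affine K) (d1 d2 : DecidableEq K) :
    @Module.finrank ℤ W.Point _ (@WeierstrassCurve.Affine.Point.instAddCommGroup K _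
      W d1).toAddCommMonoid (@AddCommGroup.toIntModule _
      (@WeierstrassCurve.Affine.Point.instAddCommGroup K _ W d1)) =
    @Module.finrank ℤ W.Point _ (@WeierstrassCurve.Affine.Point.instAddCommGroup K _
      W d2).toAddCommMonoid (@AddCommGroup.toIntModule _
      (@WeierstrassCurve.Affine.Point.instAddCommGroup K _ W d2)) := by
  have h : d1 = d2 := Subsingleton.elim _ _
  subst h
  rfl

theorem mwQ_bound (A B : ℤ) (h : 4 * A ^ 3 + 27 * B ^ 2 ≠ 0)
    (S : Finset (Pt (⟨0, 0, 0, (A : ℚ), (B : ℚ)⟩ : WeierstrassCurve ℚ) ℚ))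
    (hS : ∀ P ∈ S, ∀ Q ∈ S, (∃ R, P - Q = 2 • R) → P = Q) :
    S.card ≤ 4 * 2 ^ Module.finrank ℤ
        (⟨0, 0, 0, (A : ℚ), (B : ℚ)⟩ : WeierstrassCurve ℚ).toAffine.Point := by
  have hW : Pool.Agent.H925R3.DC.crv ℚ (A : ℚ) (B : ℚ) =
      (⟨0, 0, 0, (A : ℚ), (B : ℚ)⟩ : WeierstrassCurve ℚ).toAffine := rfl
  rw [finrank_inst _ _ (fun a b => Classical.propDecidable (a = b))]
  refine @of_eq ℚ _ _ (fun a b => Classical.propDecidable (a = b)) A B h _ hW S ?_
  rintro P hP Q hQ ⟨R, hR⟩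
  refine hS P hP Q hQ ⟨R, ?_⟩
  exact hR.trans (two_nsmul (M := Pt (⟨0, 0, 0, (A : ℚ), (B : ℚ)⟩ : WeierstrassCurve ℚ) ℚ) R).symm

theorem sha_card {A B : ℤ} (hAB : 4 * A ^ 3 + 27 * B ^ 2 ≠ 0) {e : Fin 3 → ℤ}
    (hR : RR (⟨0, 0, 0, (A : ℚ), (B : ℚ)⟩ : WeierstrassCurve ℚ) e) {P : Finset ℕ}
    (hP : ∀ p ∈ P, p.Prime) (V : Submodule (ZMod 2) (P → ZMod 2))
    (hsn : ∀ v ∈ V, IsS (⟨0, 0, 0, (A : ℚ), (B : ℚ)⟩ : WeierstrassCurve ℚ)
      (Fv (⟨0, 0, 0, (A : ℚ), (B : ℚ)⟩ : WeierstrassCurve ℚ) e (fun _ => 0) P v))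
    (hf : Finite (Sha2 (⟨0, 0, 0, (A : ℚ), (B : ℚ)⟩ : WeierstrassCurve ℚ))) :
    Nat.card V ≤ 4 * 2 ^ Module.finrank ℤ
        (⟨0, 0, 0, (A : ℚ), (B : ℚ)⟩ : WeierstrassCurve ℚ).toAffine.Point *
      Nat.card (Sha2 (⟨0, 0, 0, (A : ℚ), (B : ℚ)⟩ : WeierstrassCurve ℚ)) := by
  have hk := kerQ_bound hR hP (V := V) hsn (mwQ_bound A B hAB)
  have h1 : Nat.card V = Nat.card (V ⧸ (delQ hR V hsn).ker) * Nat.card (delQ hR V hsn).ker :=
    AddSubgroup.card_eq_card_quotient_mul_card_addSubgroup _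
  have h2 : Nat.card (V ⧸ (delQ hR V hsn).ker) = Nat.card (delQ hR V hsn).range :=
    Nat.card_congr (QuotientAddGroup.quotientKerEquivRange (delQ hR V hsn)).toEquiv
  have h3 : Nat.card (delQ hR V hsn).range ≤
      Nat.card (Sha2 (⟨0, 0, 0, (A : ℚ), (B : ℚ)⟩ : WeierstrassCurve ℚ)) := by
    refine Nat.card_le_card_of_injective (fun c => ⟨c.1, ?_⟩) ?_
    · obtain ⟨v, hv⟩ := c.2
      rw [← hv]
      exact delQ_two hR hsn v
    · intro a b hab
      exact Subtype.ext (Subtype.mk.inj hab)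
  rw [h1, h2, mul_comm]
  exact Nat.mul_le_mul hk h3

end Pool.Agent.H514.MX
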